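import Mathlib
import Pool.Agent.TH53.HR4

/-!
# Vandermonde determinants and congruences modulo an integer
-/

set_option autoImplicit false

open Polynomial Finset

namespace Pool.Agent.R383.Cong

open Pool.Agent.TH53.HR

/-- the auxiliary polynomials -/
noncomputable def aux (F : ℤ[X]) (m : ℕ) : ℂ[X] :=
  X ^ (m % F.natDegree) * (F.map (Int.castRingHom ℂ)) ^ (m / F.natDegree)

lemma aux_monic {F : ℤ[X]} (hF : F.Monic) (m : ℕ) : (aux F m).Monic :=
  (monic_X_pow _).mul ((hF.map _).pow _)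

lemma aux_natDegree {F : ℤ[X]} (hF : F.Monic) (m : ℕ) : (aux F m).natDegree = m := by
  unfold aux
  rw [(monic_X_pow _).natDegree_mul ((hF.map _).pow _),
      natDegree_X_pow, (hF.map _).natDegree_pow, hF.natDegree_map, mul_comm]
  exact Nat.mod_add_div m F.natDegree

/-- determinants of matrices with integral entries -/
lemma det_int {n : ℕ} (M : Matrix (Fin n) (Fin n) ℂ) (hM : ∀ i j, IsIntegral ℤ (M i j)) :
    IsIntegral ℤ M.det := by
  rw [Matrix.det_apply]
  refine IsIntegral.sum _ fun σ _ => ?_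
  rw [Units.smul_def, zsmul_eq_mul]
  refine IsIntegral.mul ?_ (IsIntegral.prod _ fun i _ => hM _ _)
  simpa using isIntegral_algebraMap (R := ℤ) (A := ℂ) (x := ((Equiv.Perm.sign σ : ℤˣ) : ℤ))

lemma aux_eval_int {q : ℕ} (hq : q ≠ 0) {F : ℤ[X]} {z : ℂ} (hz : IsIntegral ℤ z)
    (hF : IsIntegral ℤ (aeval z F / q)) (m : ℕ) :
    IsIntegral ℤ ((aux F m).eval z / (q : ℂ) ^ (m / F.natDegree)) := by
  have hq0 : (q : ℂ) ≠ 0 := by exact_mod_cast hq
  have e : (aux F m).eval z / (q : ℂ) ^ (m / F.natDegree) =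
      z ^ (m % F.natDegree) * (aeval z F / q) ^ (m / F.natDegree) := by
    unfold aux
    rw [eval_mul, eval_pow, eval_pow, eval_X, div_pow, eval_map, Polynomial.aeval_def]
    have : (algebraMap ℤ ℂ) = Int.castRingHom ℂ := rfl
    rw [this]
    ring
  rw [e]
  exact (hz.pow _).mul (hF.pow _)

/-- an integral rational number is an integer -/
lemma int_of_integral {q : ℕ} (hq : q ≠ 0) (m : ℕ) (r : ℤ)
    (h : IsIntegral ℤ ((r : ℂ) / (q : ℂ) ^ m)) : (q : ℤ) ^ m ∣ r := by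
  have h1 : algebraMap ℚ ℂ ((r : ℚ) / (q : ℚ) ^ m) = (r : ℂ) / (q : ℂ) ^ m := by simp
  rw [← h1] at h
  have h2 : IsIntegral ℤ ((r : ℚ) / (q : ℚ) ^ m) :=
    (isIntegral_algebraMap_iff (algebraMap ℚ ℂ).injective).mp h
  obtain ⟨c, hc⟩ := IsIntegrallyClosed.isIntegral_iff.mp h2
  refine ⟨c, ?_⟩
  have hq0 : (q : ℚ) ≠ 0 := by exact_mod_cast hq
  have h3 : (c : ℚ) = (r : ℚ) / (q : ℚ) ^ m := by rw [← hc]; simp
  have h4 : (r : ℚ) = (q : ℚ) ^ m * c := by rw [h3]; field_simp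
  exact_mod_cast h4

lemma det_lower_q {q : ℕ} (hq : q ≠ 0) {N : ℕ} (v : Fin N → ℂ)
    (hinj : Function.Injective v) (hint : ∀ i, IsIntegral ℤ (v i))
    (hs : ∀ j : ℕ, ∃ m : ℤ, ∑ i, v i ^ j = m)
    (F : ℤ[X]) (hFm : F.Monic) (hF : ∀ i, IsIntegral ℤ (aeval (v i) F / q)) :
    (q : ℝ) ^ (2 * ∑ m ∈ Finset.range N, m / F.natDegree) ≤
      ‖(Matrix.vandermonde v).det‖ ^ 2 := by
  have hq0 : (q : ℂ) ≠ 0 := by exact_mod_cast hq
  obtain ⟨r, hr⟩ := det_sq_int v hs
  set S := ∑ m ∈ Finset.range N, m / F.natDegree with hS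
  have h1 : IsIntegral ℤ ((Matrix.vandermonde v).det / (q : ℂ) ^ S) := by
    rw [Matrix.det_eval_matrixOfPolynomials_eq_det_vandermonde v
      (fun m : Fin N => aux F (m : ℕ)) (fun m => aux_natDegree hFm m)
      (fun m => aux_monic hFm m)]
    have e : (Matrix.of fun i j : Fin N => (aux F (j : ℕ)).eval (v i)) =
        Matrix.of fun i j : Fin N => (q : ℂ) ^ ((j : ℕ) / F.natDegree) *
          (Matrix.of fun i j : Fin N => (aux F (j : ℕ)).eval (v i) /
            (q : ℂ) ^ ((j : ℕ) / F.natDegree)) i j := by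
      ext i j
      simp only [Matrix.of_apply]
      field_simp
    rw [e, Matrix.det_mul_row, Finset.prod_pow_eq_pow_sum,
      Fin.sum_univ_eq_sum_range (fun m => m / F.natDegree) N, mul_div_assoc, mul_comm,
      div_mul_cancel₀ _ (pow_ne_zero _ hq0)]
    exact det_int _ fun i j => aux_eval_int hq (hint i) (hF i) j
  have h2 : IsIntegral ℤ ((r : ℂ) / (q : ℂ) ^ (2 * S)) := by
    have : (r : ℂ) / (q : ℂ) ^ (2 * S) = ((Matrix.vandermonde v).det / (q : ℂ) ^ S) ^ 2 := by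
      rw [div_pow, hr, ← pow_mul, mul_comm S 2]
    rw [this]
    exact h1.pow 2
  have h3 := int_of_integral hq _ _ h2
  have hD : (Matrix.vandermonde v).det ≠ 0 := Matrix.det_vandermonde_ne_zero_iff.mpr hinj
  have hr0 : r ≠ 0 := by
    rintro rfl
    rw [Int.cast_zero] at hr
    exact hD (pow_eq_zero_iff (two_ne_zero) |>.mp hr)
  have h4 : (q : ℤ) ^ (2 * S) ≤ |r| :=
    Int.le_of_dvd (abs_pos.mpr hr0) ((dvd_abs _ _).mpr h3)
  have h5 : ‖(Matrix.vandermonde v).det‖ ^ 2 = ((|r| : ℤ) : ℝ) := by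
    rw [← norm_pow, hr, Complex.norm_intCast, Int.cast_abs]
  rw [h5]
  exact_mod_cast h4

/-- **the determinant inequality modulo `q`** -/
theorem q_ineq {ι : Type*} [Fintype ι] {q : ℕ} (hq : 2 ≤ q) (v : ι → ℂ)
    (hinj : Function.Injective v) (hint : ∀ i, IsIntegral ℤ (v i))
    (hs : ∀ j : ℕ, ∃ m : ℤ, ∑ i, v i ^ j = m)
    (F : ℤ[X]) (hFm : F.Monic) (hFt : 0 < F.natDegree)
    (hF : ∀ i, IsIntegral ℤ (aeval (v i) F / q)) :
    (Fintype.card ι : ℝ) * ((Fintype.card ι : ℝ) - 2 * F.natDegree) * Real.log q ≤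
      F.natDegree * (Fintype.card ι * (Real.log (Fintype.card ι) +
        2 * ∑ i, Real.log (max 1 ‖v i‖))) := by
  classical
  set N := Fintype.card ι with hN
  set t := F.natDegree with ht
  let e : Fin N ≃ ι := (Fintype.equivFin ι).symm
  set w : Fin N → ℂ := fun i => v (e i) with hw
  have h1 := det_lower_q (q := q) (by omega) w (hinj.comp e.injective) (fun i => hint _) (fun j => by
    obtain ⟨m, hm⟩ := hs j
    exact ⟨m, by rw [← hm]; exact Fintype.sum_equiv e _ _ fun i => rfl⟩) F hFm (fun i => hF _)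
  have h2 := vandermonde_le w
  have hp1 : (1 : ℝ) < q := by exact_mod_cast (by omega : 1 < q)
  have hlogp : 0 < Real.log q := Real.log_pos hp1
  have h3 := h1.trans h2
  set S := ∑ m ∈ Finset.range N, m / t with hS
  have hsb := sum_bound t hFt 0 N
  simp only [Nat.sub_zero] at hsb
  rw [← hS] at hsb
  have hsb' : (N : ℝ) * ((N : ℝ) - 2 * t) ≤ 2 * t * S := by exact_mod_cast hsb
  rcases Nat.eq_zero_or_pos N with hN0 | hN0
  · rw [hN0]
    simp
  have hN1 : (0 : ℝ) < N := by exact_mod_cast hN0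
  have h4 : 2 * (S : ℝ) * Real.log q ≤ N * Real.log N +
      2 * (N - 1) * ∑ i, Real.log (max 1 ‖v i‖) := by
    have h5 := Real.log_le_log (by positivity) h3
    have hmax : ∀ i, (0:ℝ) < max 1 ‖w i‖ := fun i => lt_of_lt_of_le one_pos (le_max_left _ _)
    have hpos : ∀ i ∈ (Finset.univ : Finset (Fin N)), (max 1 ‖w i‖) ^ (2 * (N - 1)) ≠ 0 :=
      fun i _ => (pow_pos (hmax i) _).ne'
    rw [Real.log_pow, Real.log_mul (by positivity) (Finset.prod_ne_zero_iff.mpr hpos),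
      Real.log_pow, Real.log_prod hpos] at h5
    simp_rw [Real.log_pow] at h5
    rw [← Finset.mul_sum] at h5
    have h6 : ∑ i, Real.log (max 1 ‖w i‖) = ∑ i, Real.log (max 1 ‖v i‖) :=
      Fintype.sum_equiv e _ _ fun i => rfl
    rw [h6] at h5
    push_cast [Nat.cast_sub hN0] at h5
    linarith
  have hsum : 0 ≤ ∑ i, Real.log (max 1 ‖v i‖) :=
    Finset.sum_nonneg fun _ _ => Real.log_nonneg (le_max_left _ _)
  have ht0 : (0:ℝ) < t := by exact_mod_cast hFt
  calc (N : ℝ) * ((N : ℝ) - 2 * t) * Real.log q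
      ≤ 2 * t * S * Real.log q := mul_le_mul_of_nonneg_right hsb' hlogp.le
    _ = t * (2 * S * Real.log q) := by ring
    _ ≤ t * (N * Real.log N + 2 * (N - 1) * ∑ i, Real.log (max 1 ‖v i‖)) :=
        mul_le_mul_of_nonneg_left h4 ht0.le
    _ ≤ t * (N * (Real.log N + 2 * ∑ i, Real.log (max 1 ‖v i‖))) := by
        apply mul_le_mul_of_nonneg_left _ ht0.le
        nlinarith

end Pool.Agent.R383.Cong
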