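import Mathlib
import Pool.Agent.R383.Cong.Det

/-!
# The inequalities in a number field
-/

set_option autoImplicit false

open Polynomial Finset Module

namespace Pool.Agent.R383.Cong

open Pool.Agent.H388SL Pool.Agent.TH53.HR

variable {K : Type*} [Field K] [NumberField K]

/-- the conjugates of `α ^ (P (a + 1))`, `a < k` -/
noncomputable def pts (α : K) (P k : ℕ) (u : Fin k × (K →ₐ[ℚ] ℂ)) : ℂ := u.2 (α ^ (P * ((u.1 : ℕ) + 1)))

lemma pts_inj {α : K} (hα : IsIntegral ℤ α) (h0 : α ≠ 0) (hroot : ∀ n : ℕ, 0 < n → α ^ n ≠ 1)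
    (hc : ∀ l : ℕ, 0 < l → CInj (α ^ l)) {P : ℕ} (hP : 0 < P) (k : ℕ) :
    Function.Injective (pts α P k) := by
  rintro ⟨a, σ⟩ ⟨b, τ⟩ h
  simp only [pts] at h
  have hpos : ∀ x : ℕ, 0 < P * (x + 1) := fun x => Nat.mul_pos hP (Nat.succ_pos x)
  by_cases hab : a = b
  · subst hab
    have := hc _ (hpos a) h
    rw [this]
  · exfalso
    have hne : P * ((a : ℕ) + 1) ≠ P * ((b : ℕ) + 1) := by
      intro h1
      have := Nat.eq_of_mul_eq_mul_left hP h1
      apply hab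
      ext
      omega
    exact conj_ne hα h0 hroot hne (hc _ (hpos a)) (hc _ (hpos b)) σ τ h

lemma pts_int {α : K} (hα : IsIntegral ℤ α) (P k : ℕ) (u : Fin k × (K →ₐ[ℚ] ℂ)) :
    IsIntegral ℤ (pts α P k u) := (hα.pow _).map (u.2.restrictScalars ℤ)

lemma pts_sum {α : K} (hα : IsIntegral ℤ α) (P k : ℕ) (j : ℕ) :
    ∃ m : ℤ, ∑ u, pts α P k u ^ j = m := by
  have h1 : ∀ a : Fin k, ∃ m : ℤ, ∑ σ : K →ₐ[ℚ] ℂ, pts α P k (a, σ) ^ j = m := by
    intro a
    obtain ⟨m, hm⟩ := trace_int ((hα.pow (P * ((a : ℕ) + 1))).pow j)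
    refine ⟨m, ?_⟩
    rw [← hm]
    refine Finset.sum_congr rfl fun σ _ => ?_
    rw [map_pow σ (α ^ _)]
    rfl
  choose m hm using h1
  refine ⟨∑ a, m a, ?_⟩
  rw [Fintype.sum_prod_type, Int.cast_sum]
  exact Finset.sum_congr rfl fun a _ => hm a

lemma pts_card (α : K) (k : ℕ) :
    Fintype.card (Fin k × (K →ₐ[ℚ] ℂ)) = k * finrank ℚ K := by
  rw [Fintype.card_prod, Fintype.card_fin, AlgHom.card ℚ K ℂ]

lemma sum_fin (k : ℕ) : 2 * ∑ a : Fin k, (((a : ℕ) : ℝ) + 1) = k * (k + 1) := by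
  rw [Fin.sum_univ_eq_sum_range (fun a => ((a : ℕ) : ℝ) + 1) k]
  induction k with
  | zero => simp
  | succ k ih =>
    rw [Finset.sum_range_succ, mul_add, ih]
    push_cast
    ring

lemma pts_log (α : K) (P k : ℕ) :
    2 * ∑ u, Real.log (max 1 ‖pts α P k u‖) = P * (k * (k + 1)) * lam α := by
  rw [Fintype.sum_prod_type]
  have h1 : ∀ a : Fin k, ∑ σ : K →ₐ[ℚ] ℂ, Real.log (max 1 ‖pts α P k (a, σ)‖) =
      (P * (((a : ℕ) : ℝ) + 1)) * lam α := by
    intro a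
    have := lam_pow α (P * ((a : ℕ) + 1))
    unfold lam at this
    unfold pts
    rw [this]
    push_cast
    rfl
  rw [Finset.sum_congr rfl fun a _ => h1 a, ← Finset.sum_mul, ← Finset.mul_sum, ← sum_fin k]
  ring

/-- values at powers -/
lemma aeval_pow_dvd {T : ℤ[X]} (hT : ∀ l : ℕ, 0 < l → T ∣ expand ℤ l T) {l : ℕ} (hl : 0 < l)
    (z : ℂ) : ∃ Q : ℤ[X], aeval (z ^ l) T = aeval z T * aeval z Q := by
  obtain ⟨Q, hQ⟩ := hT l hl
  exact ⟨Q, by rw [← Polynomial.expand_aeval, hQ, map_mul]⟩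

lemma aeval_int {z : ℂ} (hz : IsIntegral ℤ z) (Q : ℤ[X]) : IsIntegral ℤ (aeval z Q) := by
  have := (Polynomial.aeval (⟨z, hz⟩ : integralClosure ℤ ℂ) Q).2
  have h : (aeval z Q) = ((Polynomial.aeval (⟨z, hz⟩ : integralClosure ℤ ℂ) Q :
      integralClosure ℤ ℂ) : ℂ) := by
    have h2 := Polynomial.aeval_algHom_apply (integralClosure ℤ ℂ).val
      (⟨z, hz⟩ : integralClosure ℤ ℂ) Q
    simpa using h2
  rw [h]
  exact this

/-- **the inequality modulo `q`** -/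
theorem field_q {q : ℕ} (hq : 2 ≤ q) {α : K} (hα : IsIntegral ℤ α) (h0 : α ≠ 0)
    (hroot : ∀ n : ℕ, 0 < n → α ^ n ≠ 1) (hc : ∀ l : ℕ, 0 < l → CInj (α ^ l))
    (T : ℤ[X]) (hTm : T.Monic) (hTt : 0 < T.natDegree) (hT : ∀ l : ℕ, 0 < l → T ∣ expand ℤ l T)
    (hval : ∀ σ : K →ₐ[ℚ] ℂ, IsIntegral ℤ (aeval (σ α) T / q)) (k : ℕ) (hk : 0 < k) :
    (finrank ℚ K : ℝ) * (k * finrank ℚ K - 2 * T.natDegree) * Real.log q ≤
      T.natDegree * (finrank ℚ K * (Real.log (k * finrank ℚ K) +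
        (1 : ℝ) * (k * (k + 1)) * lam α)) := by
  have hval' : ∀ u, IsIntegral ℤ (aeval (pts α 1 k u) T / q) := by
    rintro ⟨a, σ⟩
    obtain ⟨Q, hQ⟩ := aeval_pow_dvd hT (l := 1 * ((a : ℕ) + 1)) (by omega) (σ α)
    have h1 : aeval (pts α 1 k (a, σ)) T / q = (aeval (σ α) T / q) * aeval (σ α) Q := by
      unfold pts
      simp only [map_pow]
      rw [hQ]
      ring
    rw [h1]
    exact (hval σ).mul (aeval_int (hα.map (σ.restrictScalars ℤ)) Q)
  have h := q_ineq hq (pts α 1 k) (pts_inj hα h0 hroot hc one_pos k) (pts_int hα 1 k)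
    (pts_sum hα 1 k) T hTm hTt hval'
  rw [pts_card α k] at h
  have h1 := pts_log α 1 k
  rw [h1] at h
  push_cast at h
  have hk0 : (0:ℝ) < k := by exact_mod_cast hk
  set n : ℝ := (finrank ℚ K : ℝ) with hnn
  set t : ℝ := (T.natDegree : ℝ) with htt
  have h2 : (k : ℝ) * n * (k * n - 2 * t) * Real.log q = k * (n * (k * n - 2 * t) * Real.log q) := by
    ring
  have h3 : t * (k * n * (Real.log (k * n) + 1 * (k * (k + 1)) * lam α)) =
      k * (t * (n * (Real.log (k * n) + 1 * (k * (k + 1)) * lam α))) := by ring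
  rw [h2, h3] at h
  exact le_of_mul_le_mul_left h hk0

variable {p : ℕ} {V : ValuationSubring ℂ}

/-- **the inequality modulo a prime number** -/
theorem field_p (hp : p.Prime) (hV : Good p V) {α : K} (hα : IsIntegral ℤ α) (h0 : α ≠ 0)
    (hroot : ∀ n : ℕ, 0 < n → α ^ n ≠ 1) (hc : ∀ l : ℕ, 0 < l → CInj (α ^ l))
    (T : ℤ[X]) (hTm : T.Monic) (hTt : 0 < T.natDegree) (hT : ∀ l : ℕ, 0 < l → T ∣ expand ℤ l T)
    (s : ℕ) (G : Finset (K →ₐ[ℚ] ℂ)) (hG : ∀ σ ∈ G, (aeval (σ α) T) ^ (p ^ s) / p ∈ V)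
    (k : ℕ) (hk : 0 < k) :
    (G.card : ℝ) * (k * G.card - 2 * T.natDegree) * Real.log p ≤
      T.natDegree * (finrank ℚ K * (Real.log (k * finrank ℚ K) +
        (p : ℝ) ^ s * (k * (k + 1)) * lam α)) := by
  classical
  have hPs : 0 < p ^ s := Nat.pow_pos hp.pos
  set H : Finset (Fin k × (K →ₐ[ℚ] ℂ)) := Finset.univ ×ˢ Gᶜ with hH
  have hHF : ∀ u, u ∉ H → aeval (pts α (p ^ s) k u) T / p ∈ V := by
    rintro ⟨a, σ⟩ hu
    have hσ : σ ∈ G := by
      by_contra h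
      apply hu
      rw [hH, Finset.mem_product]
      exact ⟨Finset.mem_univ _, Finset.mem_compl.mpr h⟩
    have hσV : σ α ∈ V := hV.int _ (hα.map (σ.restrictScalars ℤ))
    have h2 := aeval_pow_div_mem hp hσV T (E := p ^ s) (b := s) le_rfl (hG σ hσ)
    obtain ⟨Q, hQ⟩ := aeval_pow_dvd hT (l := (a : ℕ) + 1) (by omega) ((σ α) ^ p ^ s)
    have h1 : aeval (pts α (p ^ s) k (a, σ)) T / p =
        (aeval ((σ α) ^ p ^ s) T / p) * aeval ((σ α) ^ p ^ s) Q := by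
      unfold pts
      simp only [map_pow]
      rw [pow_mul, hQ]
      ring
    rw [h1]
    exact V.mul_mem _ _ h2 (aeval_mem (V.toSubring.pow_mem hσV _) Q)
  have h := gen_ineq hp hV (pts α (p ^ s) k) (pts_inj hα h0 hroot hc hPs k) (pts_int hα _ k)
    (pts_sum hα _ k) H T hTm hTt hHF
  have hn : Fintype.card (K →ₐ[ℚ] ℂ) = finrank ℚ K := AlgHom.card ℚ K ℂ
  have hHc : (H.card : ℝ) = k * (finrank ℚ K - G.card) := by
    rw [hH, Finset.card_product, Finset.card_univ, Fintype.card_fin, Finset.card_compl, hn,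
      Nat.cast_mul, Nat.cast_sub]
    rw [← hn]
    exact Finset.card_le_univ G
  rw [pts_card α k, hHc, pts_log α (p ^ s) k] at h
  push_cast at h
  have hk0 : (0 : ℝ) < k := by exact_mod_cast hk
  set g : ℝ := (G.card : ℝ) with hg
  set n : ℝ := (finrank ℚ K : ℝ) with hnn
  set t : ℝ := (T.natDegree : ℝ) with htt
  have h2 : ((k : ℝ) * n - k * (n - g)) * (k * n - k * (n - g) - 2 * t) * Real.log p =
      k * (g * (k * g - 2 * t) * Real.log p) := by ring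
  rw [h2] at h
  have h3 : t * (k * n * (Real.log (k * n) + (p : ℝ) ^ s * (k * (k + 1)) * lam α)) =
      k * (t * (n * (Real.log (k * n) + (p : ℝ) ^ s * (k * (k + 1)) * lam α))) := by ring
  rw [h3] at h
  exact le_of_mul_le_mul_left h hk0

end Pool.Agent.R383.Cong
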