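import Mathlib

/-!
# The choice of the number of exponents
-/

set_option autoImplicit false

namespace Pool.Agent.R383.Cong

/-- the optimization over the number `k` of exponents -/
theorem opt {d n D lq P lam : ℝ} (hd1 : 1 ≤ d) (hdn : d ≤ n) (hD : 1 ≤ D)
    (hlq : Real.log 2 ≤ lq) (hP : 1 ≤ P)
    (h : ∀ k : ℕ, 0 < k → d * (k * d - 2 * D) * lq ≤
      D * (n * (Real.log (k * n) + P * (k * (k + 1)) * lam)))
    {L x : ℝ} (hL : L = Real.log (2 * n * D) + lq) (hx : x = d ^ 2 * lq / (n * D)) :
    min x (x ^ 2 / L) / (136 * P) ≤ lam := by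
  have hlog2 := Real.log_two_gt_d9
  have hn : 1 ≤ n := hd1.trans hdn
  have hn0 : 0 < n := by linarith
  have hD0 : 0 < D := by linarith
  have hd0 : 0 < d := by linarith
  have hlq0 : 0 < lq := by linarith
  have hP0 : 0 < P := by linarith
  have hnD : 1 ≤ n * D := by nlinarith
  have hlnD : 0 ≤ Real.log (n * D) := Real.log_nonneg hnD
  have hL2 : L = Real.log 2 + Real.log (n * D) + lq := by
    rw [hL, mul_assoc, Real.log_mul (by norm_num) (by positivity)]
  have hL1 : 1.38 ≤ L := by rw [hL2]; linarith
  have hL0 : 0 < L := by linarith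
  have hx0 : 0 < x := by rw [hx]; positivity
  -- the choice of `k`
  set k : ℕ := ⌈32 * L / x⌉₊ with hk
  have hy0 : 0 < 32 * L / x := by positivity
  have hk0 : 0 < k := Nat.ceil_pos.mpr hy0
  have hk1 : 32 * L / x ≤ k := Nat.le_ceil _
  have hk2 : (k : ℝ) ≤ 32 * L / x + 1 := (Nat.ceil_lt_add_one hy0.le).le
  have hkr : (0:ℝ) < k := by exact_mod_cast hk0
  have hkx : 32 * L ≤ k * x := by
    rwa [div_le_iff₀ hx0] at hk1
  have hI := h k hk0
  -- `k d` is at least `4 D`
  have hxd : x * (n * D) = d ^ 2 * lq := by rw [hx]; field_simp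
  have hkd : 4 * D ≤ k * d := by
    have h1 : 32 * L * (n * D) ≤ k * (d ^ 2 * lq) := by
      rw [← hxd]
      calc 32 * L * (n * D) ≤ k * x * (n * D) := mul_le_mul_of_nonneg_right hkx (by positivity)
        _ = k * (x * (n * D)) := by ring
    have h2 : 4 * D * (d * lq) ≤ k * d * (d * lq) := by
      have h3 : d * lq ≤ n * L := mul_le_mul hdn (by rw [hL2]; linarith) hlq0.le hn0.le
      have h4 : 4 * D * (d * lq) ≤ 4 * D * (n * L) := mul_le_mul_of_nonneg_left h3 (by positivity)
      have h5 : 4 * D * (n * L) ≤ 32 * L * (n * D) := by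
        have : 0 ≤ L * (n * D) := by positivity
        nlinarith
      calc 4 * D * (d * lq) ≤ k * (d ^ 2 * lq) := h4.trans (h5.trans h1)
        _ = k * d * (d * lq) := by ring
    exact le_of_mul_le_mul_right h2 (by positivity)
  have h1 : k * x / 2 * (n * D) ≤ d * (k * d - 2 * D) * lq := by
    have h2 : k * x / 2 * (n * D) = d * (k * d / 2) * lq := by
      calc k * x / 2 * (n * D) = k / 2 * (x * (n * D)) := by ring
        _ = k / 2 * (d ^ 2 * lq) := by rw [hxd]
        _ = d * (k * d / 2) * lq := by ring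
    rw [h2]
    apply mul_le_mul_of_nonneg_right _ hlq0.le
    apply mul_le_mul_of_nonneg_left _ hd0.le
    linarith
  have h2 : k * x / 2 ≤ Real.log (k * n) + P * (k * (k + 1)) * lam := by
    have h3 := h1.trans hI
    have h4 : D * (n * (Real.log (k * n) + P * (k * (k + 1)) * lam)) =
        (Real.log (k * n) + P * (k * (k + 1)) * lam) * (n * D) := by ring
    rw [h4] at h3
    exact le_of_mul_le_mul_right h3 (by positivity)
  -- the logarithm
  have hlogkn : Real.log (k * n) ≤ k * x / 4 := by
    have hx1 : 1 / x ≤ 2 * (n * D) := by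
      rw [div_le_iff₀ hx0]
      have : 2 * (n * D) * x = 2 * (d ^ 2 * lq) := by rw [← hxd]; ring
      rw [this]
      nlinarith [mul_le_mul hd1 hd1 zero_le_one hd0.le]
    have hk3 : (k : ℝ) ≤ 65 * (L * (n * D)) := by
      have h3 : 32 * L / x = 32 * L * (1 / x) := by ring
      rw [h3] at hk2
      have h4 : 32 * L * (1 / x) ≤ 32 * L * (2 * (n * D)) :=
        mul_le_mul_of_nonneg_left hx1 (by positivity)
      have h5 : 1 ≤ L * (n * D) := by nlinarith
      nlinarith
    have h3 : Real.log (k * n) ≤ Real.log 65 + Real.log L + Real.log (n * D) + Real.log n := by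
      rw [Real.log_mul hkr.ne' hn0.ne']
      have h4 := Real.log_le_log hkr hk3
      rw [Real.log_mul (by norm_num) (by positivity), Real.log_mul hL0.ne' (by positivity)] at h4
      linarith
    have h4 : Real.log L ≤ L - 1 := Real.log_le_sub_one_of_pos hL0
    have h5 : Real.log n ≤ Real.log (n * D) := Real.log_le_log hn0 (by nlinarith)
    have h6 : Real.log 65 ≤ 4.2 := by
      have h7 : Real.log 65 ≤ Real.log (2 ^ 6 * (1 + 1 / 64)) := by
        apply Real.log_le_log (by norm_num); norm_num
      have h8 : Real.log (2 ^ 6 * (1 + 1 / 64)) ≤ 6 * Real.log 2 + 1 / 64 := by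
        rw [Real.log_mul (by norm_num) (by norm_num), Real.log_pow]
        have := Real.log_le_sub_one_of_pos (show (0:ℝ) < 1 + 1 / 64 by norm_num)
        push_cast
        linarith
      have := Real.log_two_lt_d9
      linarith
    have h7 : Real.log (n * D) ≤ L := by rw [hL2]; linarith
    have h8 : 8 * L ≤ k * x / 4 := by linarith
    linarith
  have h3 : k * x / 4 ≤ P * (k * (k + 1)) * lam := by linarith
  have h4 : x / 4 ≤ P * (k + 1) * lam := by
    have : k * (x / 4) ≤ k * (P * (k + 1) * lam) := by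
      calc (k:ℝ) * (x / 4) = k * x / 4 := by ring
        _ ≤ P * (k * (k + 1)) * lam := h3
        _ = k * (P * (k + 1) * lam) := by ring
    exact le_of_mul_le_mul_left this hkr
  set m := min x (x ^ 2 / L) with hm
  have hm0 : 0 ≤ m := le_min hx0.le (by positivity)
  have h5 : m * (k + 1) ≤ 34 * x := by
    have h6 : (k : ℝ) + 1 ≤ 32 * L / x + 2 := by linarith
    calc m * (k + 1) ≤ m * (32 * L / x + 2) := mul_le_mul_of_nonneg_left h6 hm0
      _ = 32 * (m * (L / x)) + 2 * m := by ring
      _ ≤ 32 * x + 2 * x := by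
          have h7 : m * (L / x) ≤ x := by
            calc m * (L / x) ≤ x ^ 2 / L * (L / x) :=
                  mul_le_mul_of_nonneg_right (min_le_right _ _) (by positivity)
              _ = x := by field_simp
          have h8 : m ≤ x := min_le_left _ _
          linarith
      _ = 34 * x := by ring
  rw [div_le_iff₀ (by positivity)]
  have hk10 : (0:ℝ) < k + 1 := by positivity
  have h6 : m * (k + 1) ≤ 34 * (4 * (P * (k + 1) * lam)) := by linarith
  have h7 : m * (k + 1) ≤ lam * (136 * P) * (k + 1) := by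
    calc m * (k + 1) ≤ 34 * (4 * (P * (k + 1) * lam)) := h6
      _ = lam * (136 * P) * (k + 1) := by ring
  exact le_of_mul_le_mul_right h7 hk10

end Pool.Agent.R383.Cong
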