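import Mathlib
import Pool.Agent.R383.Cong.Field
import Pool.Agent.R383.Cong.Opt
import Pool.Agent.TH53.HR6

/-!
# Transfer to integer polynomials
-/

set_option autoImplicit false

open Polynomial Finset Module IntermediateField

namespace Pool.Agent.R383.Cong

open Pool.Agent.H388SL Pool.Agent.TH53.HR

/-- no quotient of two distinct zeros is a root of unity -/
def Nondeg (f : ℤ[X]) : Prop :=
  ∀ z w : ℂ, aeval z f = 0 → aeval w f = 0 → z ≠ w → ∀ m : ℕ, 0 < m → z ^ m ≠ w ^ m

/-- passage to a number field -/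
theorem to_field (f : ℤ[X]) (hf : Irreducible f) (hm : f.Monic)
    (hM : 1 < (f.map (Int.castRingHom ℂ)).mahlerMeasure) (hnd : Nondeg f) :
    ∃ (K : Type) (_ : Field K) (_ : NumberField K) (α : K), IsIntegral ℤ α ∧ α ≠ 0 ∧
      (∀ n : ℕ, 0 < n → α ^ n ≠ 1) ∧ (∀ l : ℕ, 0 < l → CInj (α ^ l)) ∧
      finrank ℚ K = f.natDegree ∧ lam α = Real.log (f.map (Int.castRingHom ℂ)).mahlerMeasure ∧
      (∀ σ : K →ₐ[ℚ] ℂ, aeval (σ α) f = 0) ∧
      f.map (Int.castRingHom ℂ) = ∏ τ : K →ₐ[ℚ] ℂ, (X - C (τ α)) := by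
  classical
  have hdeg : f.natDegree ≠ 0 := by
    intro h
    have := hm.natDegree_eq_zero.mp h
    exact hf.not_isUnit (this ▸ isUnit_one)
  obtain ⟨z, hz⟩ := IsAlgClosed.exists_aeval_eq_zero ℂ f (by
    intro h
    exact hdeg (natDegree_eq_of_degree_eq_some h))
  have hzi : IsIntegral ℤ z := ⟨f, hm, by rw [← Polynomial.aeval_def]; exact hz⟩
  have hzQ : IsIntegral ℚ z := hzi.tower_top
  have hmin : minpoly ℤ z = f := by
    have h1 := minpoly.isIntegrallyClosed_dvd hzi hz
    have h2 : Associated (minpoly ℤ z) f :=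
      (minpoly.irreducible hzi).associated_of_dvd hf h1
    exact eq_of_monic_of_associated (minpoly.monic hzi) hm h2
  set L := adjoin ℚ {z} with hL
  have hfin : FiniteDimensional ℚ L := adjoin.finiteDimensional hzQ
  have hNF : NumberField L := { to_charZero := inferInstance, to_finiteDimensional := hfin }
  set α : L := AdjoinSimple.gen ℚ z with hα
  have hαz : algebraMap L ℂ α = z := AdjoinSimple.algebraMap_gen ℚ z
  have hαi : IsIntegral ℤ α := by
    rw [← hαz] at hzi
    exact (isIntegral_algebraMap_iff (algebraMap L ℂ).injective).mp hzi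
  have hαc : CInj α := by
    intro σ τ h
    apply adjoin_algHom_ext ℚ (s := {z})
    intro x hx
    rw [Set.mem_singleton_iff] at hx
    subst hx
    exact h
  have hminα : minpoly ℤ α = f := by
    rw [← hmin, ← hαz]
    exact (minpoly.algebraMap_eq (algebraMap L ℂ).injective α).symm
  have hpmap : f.map (Int.castRingHom ℂ) = ∏ τ : L →ₐ[ℚ] ℂ, (X - C (τ α)) := by
    rw [← minpoly_map_eq hαc, minpoly.isIntegrallyClosed_eq_field_fractions' ℚ hαi, hminα,
      Polynomial.map_map]
    rfl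
  have hMM : Real.log (f.map (Int.castRingHom ℂ)).mahlerMeasure = lam α := by
    rw [hpmap]
    have h1 : (∏ τ : L →ₐ[ℚ] ℂ, (X - C (τ α))).mahlerMeasure = ∏ τ : L →ₐ[ℚ] ℂ, max 1 ‖τ α‖ := by
      rw [Finset.prod_eq_multiset_prod, prod_mahlerMeasure_eq_mahlerMeasure_prod, Multiset.map_map,
        Finset.prod_eq_multiset_prod]
      congr 1
      refine Multiset.map_congr rfl fun τ _ => ?_
      rw [Function.comp_apply, mahlerMeasure_X_sub_C]
    rw [h1, Real.log_prod]
    · rfl
    · intro τ _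
      have : (0:ℝ) < max 1 ‖τ α‖ := lt_of_lt_of_le one_pos (le_max_left _ _)
      exact this.ne'
  have hfr : finrank ℚ L = f.natDegree := by
    rw [hL, adjoin.finrank hzQ, minpoly.isIntegrallyClosed_eq_field_fractions' ℚ hzi, hmin]
    exact natDegree_map_eq_of_injective (algebraMap ℤ ℚ).injective_int f
  have hlampos : 0 < lam α := by
    rw [← hMM]; exact Real.log_pos hM
  have hα0 : α ≠ 0 := by
    intro h
    rw [h] at hlampos
    unfold lam at hlampos
    simp at hlampos
  have hαroot : ∀ n : ℕ, 0 < n → α ^ n ≠ 1 := by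
    intro n hn h
    have h1 := lam_pow α n
    rw [h] at h1
    have h2 : lam (1 : L) = 0 := by unfold lam; simp
    rw [h2] at h1
    have h3 : (0:ℝ) < n := by exact_mod_cast hn
    have : 0 < (n:ℝ) * lam α := mul_pos h3 hlampos
    linarith
  have hzero : ∀ σ : L →ₐ[ℚ] ℂ, aeval (σ α) f = 0 := by
    intro σ
    rw [← map_aevalZ, ← hminα, minpoly.aeval, map_zero]
  have hc : ∀ l : ℕ, 0 < l → CInj (α ^ l) := by
    intro l hl σ τ h
    simp only [map_pow] at h
    by_contra hne
    have h1 : σ α ≠ τ α := fun h2 => hne (hαc h2)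
    exact hnd _ _ (hzero σ) (hzero τ) h1 l hl h
  exact ⟨L, inferInstance, hNF, α, hαi, hα0, hαroot, hc, hfr, hMM.symm, hzero, hpmap⟩

/-- the product of the polynomials `X ^ a - 1` -/
noncomputable def binomials (S : Multiset ℕ) : ℤ[X] :=
  (S.map fun a => (X ^ a - 1 : ℤ[X])).prod

lemma binomials_monic {S : Multiset ℕ} (hS : ∀ a ∈ S, 0 < a) : (binomials S).Monic := by
  unfold binomials
  apply monic_multiset_prod_of_monic
  intro a ha
  exact monic_X_pow_sub_C (1:ℤ) (hS a ha).ne'

lemma binomials_natDegree {S : Multiset ℕ} (hS : ∀ a ∈ S, 0 < a) :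
    (binomials S).natDegree = S.sum := by
  unfold binomials
  rw [natDegree_multiset_prod_of_monic]
  · rw [Multiset.map_map]
    have : S.map (natDegree ∘ fun a => (X ^ a - 1 : ℤ[X])) = S.map id := by
      refine Multiset.map_congr rfl fun a _ => ?_
      simp only [Function.comp_apply, id]
      exact natDegree_X_pow_sub_C (r := (1:ℤ))
    rw [this, Multiset.map_id]
  · intro g hg
    obtain ⟨a, ha, rfl⟩ := Multiset.mem_map.mp hg
    exact monic_X_pow_sub_C (1:ℤ) (hS a ha).ne'

lemma binomials_expand (S : Multiset ℕ) (l : ℕ) : binomials S ∣ expand ℤ l (binomials S) := by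
  unfold binomials
  induction S using Multiset.induction_on with
  | empty => simp
  | cons a S ih =>
    rw [Multiset.map_cons, Multiset.prod_cons, map_mul]
    apply mul_dvd_mul _ ih
    have h1 : expand ℤ l (X ^ a - 1 : ℤ[X]) = (X ^ a) ^ l - 1 := by
      rw [map_sub, map_pow, expand_X, map_one, ← pow_mul, ← pow_mul, mul_comm]
    rw [h1]
    exact sub_one_dvd_pow_sub_one (X ^ a : ℤ[X]) l
  where
    sub_one_dvd_pow_sub_one (x : ℤ[X]) (l : ℕ) : x - 1 ∣ x ^ l - 1 := by
      simpa using sub_dvd_pow_sub_pow x 1 l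

/-- the bound modulo an integer, for monic polynomials -/
theorem monic_q (f : ℤ[X]) (hf : Irreducible f) (hm : f.Monic)
    (hM : 1 < (f.map (Int.castRingHom ℂ)).mahlerMeasure) (hnd : Nondeg f)
    (T : ℤ[X]) (hTm : T.Monic) (hT : ∀ l : ℕ, 0 < l → T ∣ expand ℤ l T) {q : ℕ} (hq : 2 ≤ q)
    (hTf : T ∈ Ideal.span {f, C (q : ℤ)}) :
    ((f.natDegree : ℝ) * Real.log q / T.natDegree) ^ 2 /
        (136 * Real.log (2 * f.natDegree * T.natDegree * q)) ≤
      Real.log (f.map (Int.castRingHom ℂ)).mahlerMeasure := by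
  have hdeg : f.natDegree ≠ 0 := by
    intro h
    have := hm.natDegree_eq_zero.mp h
    exact hf.not_isUnit (this ▸ isUnit_one)
  obtain ⟨K, _, _, α, hα, h0, hroot, hc, hfr, hlam, hzero, -⟩ := to_field f hf hm hM hnd
  obtain ⟨a, b, hab⟩ := Ideal.mem_span_pair.mp hTf
  -- the degree of `T`
  have hnT : f.natDegree ≤ T.natDegree := by
    have hq1 : Nontrivial (ZMod q) := ZMod.nontrivial_iff.mpr (by omega)
    have h1 := congrArg (Polynomial.map (Int.castRingHom (ZMod q))) hab
    rw [Polynomial.map_add, Polynomial.map_mul, Polynomial.map_mul, Polynomial.map_C] at h1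
    have h2 : (Int.castRingHom (ZMod q)) (q : ℤ) = 0 := by simp
    rw [h2, C_0, mul_zero, add_zero] at h1
    have hfm : (f.map (Int.castRingHom (ZMod q))).Monic := hm.map _
    have hT1 : (T.map (Int.castRingHom (ZMod q))).Monic := hTm.map _
    have h3 : (a.map (Int.castRingHom (ZMod q))) ≠ 0 := by
      intro h
      rw [h, zero_mul] at h1
      rw [← h1] at hT1
      exact not_monic_zero hT1
    have h4 := congrArg natDegree h1
    rw [mul_comm, hfm.natDegree_mul' h3, hm.natDegree_map, hTm.natDegree_map] at h4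
    omega
  have hTt : 0 < T.natDegree := by omega
  have hq0 : (q : ℂ) ≠ 0 := by exact_mod_cast (by omega : q ≠ 0)
  have hval : ∀ σ : K →ₐ[ℚ] ℂ, IsIntegral ℤ (aeval (σ α) T / q) := by
    intro σ
    have h1 : aeval (σ α) T / q = aeval (σ α) b := by
      rw [← hab]
      rw [map_add, map_mul, map_mul, hzero σ, mul_zero, zero_add, aeval_C]
      have : (algebraMap ℤ ℂ) (q : ℤ) = (q : ℂ) := by simp
      rw [this]
      field_simp
    rw [h1]
    exact aeval_int (hα.map (σ.restrictScalars ℤ)) b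
  have h := fun k hk => field_q hq hα h0 hroot hc T hTm hTt hT hval k hk
  rw [hfr, hlam] at h
  have hn1 : (1:ℝ) ≤ (f.natDegree : ℝ) := by exact_mod_cast Nat.one_le_iff_ne_zero.mpr hdeg
  have hD1 : (1:ℝ) ≤ (T.natDegree : ℝ) := by exact_mod_cast hTt
  have hnT' : (f.natDegree : ℝ) ≤ T.natDegree := by exact_mod_cast hnT
  have hq2 : (2:ℝ) ≤ q := by exact_mod_cast hq
  have hlq : Real.log 2 ≤ Real.log q := Real.log_le_log (by norm_num) hq2
  have hlq0 : 0 < Real.log q := lt_of_lt_of_le (Real.log_pos one_lt_two) hlq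
  have hL : Real.log (2 * f.natDegree * T.natDegree * q) =
      Real.log (2 * f.natDegree * T.natDegree) + Real.log q :=
    Real.log_mul (by positivity) (by positivity)
  have hx : (f.natDegree : ℝ) * Real.log q / T.natDegree =
      (f.natDegree : ℝ) ^ 2 * Real.log q / (f.natDegree * T.natDegree) := by
    field_simp
  have h2 := opt hn1 le_rfl hD1 hlq le_rfl h hL hx
  refine le_trans ?_ h2
  rw [mul_one]
  have hxL : (f.natDegree : ℝ) * Real.log q / T.natDegree ≤
      Real.log (2 * f.natDegree * T.natDegree * q) := by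
    have h3 : (f.natDegree : ℝ) * Real.log q / T.natDegree ≤ Real.log q := by
      rw [div_le_iff₀ (by positivity), mul_comm]
      exact mul_le_mul_of_nonneg_left hnT' hlq0.le
    have h4 : 0 ≤ Real.log (2 * f.natDegree * T.natDegree) := by
      apply Real.log_nonneg
      nlinarith
    linarith
  have hx0 : 0 < (f.natDegree : ℝ) * Real.log q / T.natDegree := by positivity
  have hL0 : 0 < Real.log (2 * f.natDegree * T.natDegree * q) := lt_of_lt_of_le hx0 hxL
  have hmin : min ((f.natDegree : ℝ) * Real.log q / T.natDegree)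
      (((f.natDegree : ℝ) * Real.log q / T.natDegree) ^ 2 /
        Real.log (2 * f.natDegree * T.natDegree * q)) =
      ((f.natDegree : ℝ) * Real.log q / T.natDegree) ^ 2 /
        Real.log (2 * f.natDegree * T.natDegree * q) := by
    apply min_eq_right
    rw [div_le_iff₀ hL0, sq]
    exact mul_le_mul_of_nonneg_left hxL hx0.le
  rw [hmin, div_div, mul_comm (136:ℝ)]

/-- the bound modulo a prime number, for monic polynomials -/
theorem monic_p (f : ℤ[X]) (hf : Irreducible f) (hm : f.Monic)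
    (hM : 1 < (f.map (Int.castRingHom ℂ)).mahlerMeasure) (hnd : Nondeg f)
    (T : ℤ[X]) (hTm : T.Monic) (hT : ∀ l : ℕ, 0 < l → T ∣ expand ℤ l T) {p : ℕ} (hp : p.Prime)
    (s : ℕ) (A B : (ZMod p)[X]) (hAB : f.map (Int.castRingHom (ZMod p)) = A * B)
    (hco : IsCoprime A B) (hAT : A ∣ (T.map (Int.castRingHom (ZMod p))) ^ p ^ s) {x : ℝ}
    (hx : x = (A.natDegree : ℝ) ^ 2 * Real.log p / (f.natDegree * T.natDegree)) :
    min x (x ^ 2 / Real.log (2 * f.natDegree * T.natDegree * p)) / (136 * (p : ℝ) ^ s) ≤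
      Real.log (f.map (Int.castRingHom ℂ)).mahlerMeasure := by
  classical
  have : Fact p.Prime := ⟨hp⟩
  have hdeg : f.natDegree ≠ 0 := by
    intro h
    have := hm.natDegree_eq_zero.mp h
    exact hf.not_isUnit (this ▸ isUnit_one)
  have hlM : 0 ≤ Real.log (f.map (Int.castRingHom ℂ)).mahlerMeasure := (Real.log_pos hM).le
  -- trivial cases
  rcases Nat.eq_zero_or_pos A.natDegree with hA0 | hA0
  · rw [hA0] at hx
    have hx0 : x = 0 := by rw [hx]; simp
    rw [hx0]
    simpa using hlM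
  rcases Nat.eq_zero_or_pos T.natDegree with hT0 | hTt
  · rw [hT0] at hx
    have hx0 : x = 0 := by rw [hx]; simp
    rw [hx0]
    simpa using hlM
  obtain ⟨K, _, _, α, hα, h0, hroot, hc, hfr, hlam, hzero, hpmap⟩ := to_field f hf hm hM hnd
  obtain ⟨V, hV⟩ := exists_val p hp
  have hαV : ∀ σ : K →ₐ[ℚ] ℂ, σ α ∈ V := fun σ => hV.int _ (hα.map (σ.restrictScalars ℤ))
  set G : Finset (K →ₐ[ℚ] ℂ) :=
    Finset.univ.filter fun σ => (aeval (σ α) T) ^ (p ^ s) / p ∈ V with hG
  have hcount := count_good hp hV f (fun σ : K →ₐ[ℚ] ℂ => (⟨σ α, hαV σ⟩ : V)) hpmap A B hAB hco T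
    (p ^ s) hAT G (fun σ hσ => by rw [hG, Finset.mem_filter]; exact ⟨Finset.mem_univ _, hσ⟩)
  have hGn : G.card ≤ f.natDegree := by
    rw [← hfr, ← AlgHom.card ℚ K ℂ]
    exact Finset.card_le_univ G
  have h := fun k hk => field_p hp hV hα h0 hroot hc T hTm hTt hT s G (fun σ hσ => by
    rw [hG, Finset.mem_filter] at hσ; exact hσ.2) k hk
  rw [hfr, hlam] at h
  have hn1 : (1:ℝ) ≤ (f.natDegree : ℝ) := by exact_mod_cast Nat.one_le_iff_ne_zero.mpr hdeg
  have hD1 : (1:ℝ) ≤ (T.natDegree : ℝ) := by exact_mod_cast hTt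
  have hd1 : (1:ℝ) ≤ (A.natDegree : ℝ) := by exact_mod_cast hA0
  have hdg : (A.natDegree : ℝ) ≤ (G.card : ℝ) := by exact_mod_cast hcount
  have hgn : (G.card : ℝ) ≤ (f.natDegree : ℝ) := by exact_mod_cast hGn
  have hp2 : (2:ℝ) ≤ p := by exact_mod_cast hp.two_le
  have hlp : Real.log 2 ≤ Real.log p := Real.log_le_log (by norm_num) hp2
  have hlp0 : 0 < Real.log p := lt_of_lt_of_le (Real.log_pos one_lt_two) hlp
  have hP1 : (1:ℝ) ≤ (p:ℝ) ^ s := one_le_pow₀ (by linarith)
  have hL : Real.log (2 * f.natDegree * T.natDegree * p) =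
      Real.log (2 * f.natDegree * T.natDegree) + Real.log p :=
    Real.log_mul (by positivity) (by positivity)
  apply opt hd1 (hdg.trans hgn) hD1 hlp hP1 _ hL hx
  intro k hk
  have hkr : (1:ℝ) ≤ k := by exact_mod_cast hk
  have h1 := h k hk
  set R := (T.natDegree : ℝ) * (f.natDegree * (Real.log (k * f.natDegree) +
    (p : ℝ) ^ s * (k * (k + 1)) * Real.log (f.map (Int.castRingHom ℂ)).mahlerMeasure)) with hR
  have hR0 : 0 ≤ R := by
    have h2 : 0 ≤ Real.log (k * f.natDegree) := Real.log_nonneg (by nlinarith)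
    rw [hR]
    positivity
  rcases le_or_gt ((k:ℝ) * A.natDegree) (2 * T.natDegree) with h2 | h2
  · refine le_trans ?_ hR0
    apply mul_nonpos_of_nonpos_of_nonneg _ hlp0.le
    apply mul_nonpos_of_nonneg_of_nonpos (by linarith)
    linarith
  · refine le_trans ?_ h1
    apply mul_le_mul_of_nonneg_right _ hlp0.le
    have h3 : (k:ℝ) * A.natDegree ≤ k * G.card := mul_le_mul_of_nonneg_left hdg (by linarith)
    apply mul_le_mul hdg (by linarith) (by linarith) (by linarith)

end Pool.Agent.R383.Cong
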